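import Pool.Agent.Lib_helper29.RO.Defs

/-!
# Block O1: spaces of matrices closed under brackets and stable under Eichler transformations
-/

set_option autoImplicit false

namespace Pool.Agent.RO

open Matrix

namespace O1

section Abs

variable {K V R : Type*} [Field K] [AddCommGroup V] [Module K V] [Ring R] [Algebra K R]
  (T : V →ₗ[K] V →ₗ[K] R) (b : V →ₗ[K] V →ₗ[K] K)

/-- the skew element `x y^* - y x^*` -/
def sk (x y : V) : R := T x y - T y x

theorem sk_add_left (x y z : V) : sk T (x + y) z = sk T x z + sk T y z := by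
  simp only [sk, map_add, LinearMap.add_apply]; abel

theorem sk_add_right (x y z : V) : sk T x (y + z) = sk T x y + sk T x z := by
  simp only [sk, map_add, LinearMap.add_apply]; abel

theorem sk_sub_left (x y z : V) : sk T (x - y) z = sk T x z - sk T y z := by
  simp only [sk, map_sub, LinearMap.sub_apply]; abel

theorem sk_sub_right (x y z : V) : sk T x (y - z) = sk T x y - sk T x z := by
  simp only [sk, map_sub, LinearMap.sub_apply]; abel

theorem sk_smul_left (c : K) (x y : V) : sk T (c • x) y = c • sk T x y := by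
  simp only [sk, map_smul, LinearMap.smul_apply, smul_sub]

theorem sk_smul_right (c : K) (x y : V) : sk T x (c • y) = c • sk T x y := by
  simp only [sk, map_smul, LinearMap.smul_apply, smul_sub]

theorem sk_self (x : V) : sk T x x = 0 := by simp [sk]

theorem sk_swap (x y : V) : sk T x y = - sk T y x := by simp [sk]

theorem sk_zero_left (y : V) : sk T 0 y = 0 := by simp [sk]

theorem sk_zero_right (y : V) : sk T y 0 = 0 := by simp [sk]

/-- the action of `a c^* - c a^*` on vectors -/
def act (a c z : V) : V := b c z • a - b a z • c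

variable {T b}

theorem br_T (hT : ∀ x y z w, T x y * T z w = b y z • T x w) (hb : ∀ x y, b x y = b y x)
    (a c x y : V) :
    sk T a c * T x y - T x y * sk T a c = T (act b a c x) y + T x (act b a c y) := by
  simp only [sk, act, mul_sub, sub_mul, hT, map_sub, map_smul, LinearMap.sub_apply,
    LinearMap.smul_apply]
  rw [hb y a, hb y c]
  abel

theorem br_sk (hT : ∀ x y z w, T x y * T z w = b y z • T x w) (hb : ∀ x y, b x y = b y x)
    (a c x y : V) :
    sk T a c * sk T x y - sk T x y * sk T a c = sk T (act b a c x) y + sk T x (act b a c y) := by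
  have h1 := br_T hT hb a c x y
  have h2 := br_T hT hb a c y x
  have h3 : sk T a c * sk T x y - sk T x y * sk T a c =
      (sk T a c * T x y - T x y * sk T a c) - (sk T a c * T y x - T y x * sk T a c) := by
    conv_lhs => rw [show sk T x y = T x y - T y x from rfl]
    rw [mul_sub, sub_mul]; abel
  rw [h3, h1, h2]
  simp only [sk]
  abel

variable (hT : ∀ x y z w, T x y * T z w = b y z • T x w) (hb : ∀ x y, b x y = b y x)
  (W : Submodule K R) (hW : ∀ a c, ∀ Y ∈ W, sk T a c * Y - Y * sk T a c ∈ W)

include hT hb hW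

/-- the final step -/
theorem final {u u' w0 : V} (h1 : b u u = 0) (h2 : b u' u' = 0) (h3 : b u u' = 1)
    (h4 : b u w0 = 0) (h6 : b w0 w0 ≠ 0)
    (h : ∀ y, b u y = 0 → sk T u y ∈ W) (x y : V) : sk T x y ∈ W := by
  have h3' : b u' u = 1 := by rw [hb]; exact h3
  have A : ∀ x y, b u x = 0 → b u y = 0 → sk T x y - b x y • sk T u u' ∈ W := by
    intro x y hx hy
    have e := hW x u' _ (h y hy)
    rw [br_sk hT hb] at e
    have e1 : act b x u' u = x := by
      simp only [act, h3', hb x u, hx, one_smul, zero_smul, sub_zero]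
    rw [e1] at e
    simp only [act, sk_sub_right, sk_smul_right] at e
    have e2 := W.smul_mem (b u' y) (h x hx)
    have e3 := W.sub_mem e e2
    convert e3 using 1
    abel
  have B : sk T u u' ∈ W := by
    have e := A w0 w0 h4 h4
    rw [sk_self, zero_sub] at e
    have e1 := W.smul_mem (b w0 w0)⁻¹ (W.neg_mem e)
    rwa [neg_neg, smul_smul, inv_mul_cancel₀ h6, one_smul] at e1
  have A' : ∀ x y, b u x = 0 → b u y = 0 → sk T x y ∈ W := by
    intro x y hx hy
    have e := W.add_mem (A x y hx hy) (W.smul_mem (b x y) B)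
    rwa [sub_add_cancel] at e
  have D : ∀ y, b u y = 0 → b u' y = 0 → sk T u' y ∈ W := by
    intro y hy hy'
    have e := hW u' y _ B
    rw [br_sk hT hb] at e
    have e1 : act b u' y u = - y := by
      simp only [act, h3', hb y u, hy, one_smul, zero_smul, zero_sub]
    have e2 : act b u' y u' = 0 := by
      simp only [act, h2, hb y u', hy', zero_smul, sub_zero]
    rw [e1, e2, sk_zero_right, add_zero] at e
    have e3 : sk T (-y) u' = sk T u' y := by
      simp only [sk, map_neg, LinearMap.neg_apply]; abel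
    rwa [e3] at e
  have dec : ∀ x : V, ∃ x0, x = b x u' • u + b x u • u' + x0 ∧ b u x0 = 0 ∧ b u' x0 = 0 := by
    intro x
    refine ⟨x - b x u' • u - b x u • u', by abel, ?_, ?_⟩
    · simp only [map_sub, map_smul, smul_eq_mul, h1, h3, hb u x]; ring
    · simp only [map_sub, map_smul, smul_eq_mul, h2, h3', hb u' x]; ring
  obtain ⟨x0, hx, hx1, hx2⟩ := dec x
  obtain ⟨y0, hy, hy1, hy2⟩ := dec y
  rw [hx, hy]
  simp only [sk_add_left, sk_add_right, sk_smul_left, sk_smul_right, sk_self, smul_zero, zero_add,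
    add_zero]
  have m1 : sk T u' u ∈ W := by rw [sk_swap]; exact W.neg_mem B
  have m2 : sk T u y0 ∈ W := h y0 hy1
  have m3 : sk T u' y0 ∈ W := D y0 hy1 hy2
  have m4 : sk T x0 u ∈ W := by rw [sk_swap]; exact W.neg_mem (h x0 hx1)
  have m5 : sk T x0 u' ∈ W := by rw [sk_swap]; exact W.neg_mem (D x0 hx1 hx2)
  have m6 : sk T x0 y0 ∈ W := A' x0 y0 hx1 hy1
  repeat' first | assumption | apply W.add_mem | apply W.smul_mem

/-- from `N(u,y) ∈ W` for `y` orthogonal to `u, u'` -/
theorem final' {u u' w0 : V} (h1 : b u u = 0) (h2 : b u' u' = 0) (h3 : b u u' = 1)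
    (h4 : b u w0 = 0) (h6 : b w0 w0 ≠ 0)
    (h : ∀ y, b u y = 0 → b u' y = 0 → sk T u y ∈ W) (x y : V) : sk T x y ∈ W := by
  have h3' : b u' u = 1 := by rw [hb]; exact h3
  refine final hT hb W hW h1 h2 h3 h4 h6 (fun y hy => ?_) x y
  have e := h (y - b u' y • u) (by simp only [map_sub, map_smul, smul_eq_mul, hy, h1]; ring)
    (by simp only [map_sub, map_smul, smul_eq_mul, h3']; ring)
  rwa [sk_sub_right, sk_smul_right, sk_self, smul_zero, sub_zero] at e

/-- case B -/
theorem caseB {u u' w0 : V} (h1 : b u u = 0) (h2 : b u' u' = 0) (h3 : b u u' = 1)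
    (h4 : b u w0 = 0) (h5 : b u' w0 = 0) (h6 : b w0 w0 ≠ 0) (hbr : ∀ x ∈ W, ∀ y ∈ W, x * y - y * x ∈ W)
    (t2 : (2 : K) ≠ 0) (t3 : (3 : K) ≠ 0) (h : T u u ∈ W) (x y : V) : sk T x y ∈ W := by
  have h3' : b u' u = 1 := by rw [hb]; exact h3
  have h4' : b w0 u = 0 := by rw [hb]; exact h4
  have h5' : b w0 u' = 0 := by rw [hb]; exact h5
  set q := b w0 w0 with hq
  have a1 : act b w0 u' u = w0 := by simp only [act, h3', h4', one_smul, zero_smul, sub_zero]
  have a2 : act b w0 u' w0 = - (q • u') := by simp only [act, h5, ← hq, zero_smul, zero_sub]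
  have a3 : act b w0 u' u' = 0 := by simp only [act, h2, h5', zero_smul, sub_zero]
  have e1 := hW w0 u' _ h
  rw [br_T hT hb, a1] at e1
  have e2 := hW w0 u' _ e1
  rw [mul_add, add_mul, add_sub_add_comm, br_T hT hb, br_T hT hb, a1, a2] at e2
  have e2' : (2 : K) • T w0 w0 - q • (T u' u + T u u') ∈ W := by
    convert e2 using 1
    simp only [map_neg, map_smul, LinearMap.neg_apply, LinearMap.smul_apply, two_smul, smul_add]
    abel
  have e3 := hW w0 u' _ e2'
  have e3' : q • (T u' w0 + T w0 u') ∈ W := by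
    have e4 : sk T w0 u' * ((2 : K) • T w0 w0 - q • (T u' u + T u u')) -
        ((2 : K) • T w0 w0 - q • (T u' u + T u u')) * sk T w0 u' =
        (2 : K) • (sk T w0 u' * T w0 w0 - T w0 w0 * sk T w0 u') -
        q • ((sk T w0 u' * T u' u - T u' u * sk T w0 u') +
          (sk T w0 u' * T u u' - T u u' * sk T w0 u')) := by
      simp only [mul_sub, sub_mul, mul_add, add_mul, mul_smul_comm, smul_mul_assoc, smul_sub,
        smul_add]
      abel
    rw [e4, br_T hT hb, br_T hT hb, br_T hT hb, a1, a2, a3] at e3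
    simp only [map_neg, map_smul, map_zero, LinearMap.neg_apply, LinearMap.smul_apply,
      LinearMap.zero_apply, zero_add, add_zero] at e3
    have e5 : (2 : K) • (-(q • T u' w0) + -(q • T w0 u')) - q • (T u' w0 + T w0 u') =
        -(3 : K) • (q • (T u' w0 + T w0 u')) := by
      module
    rw [e5] at e3
    have e6 := W.smul_mem (-(3 : K))⁻¹ e3
    rwa [smul_smul, inv_mul_cancel₀ (neg_ne_zero.mpr t3), one_smul] at e6
  have e4 : T u' w0 + T w0 u' ∈ W := by
    have e6 := W.smul_mem q⁻¹ e3'
    rwa [smul_smul, inv_mul_cancel₀ h6, one_smul] at e6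
  have e5 := hW w0 u' _ e4
  rw [mul_add, add_mul, add_sub_add_comm, br_T hT hb, br_T hT hb, a2, a3] at e5
  have e6 : T u' u' ∈ W := by
    simp only [map_neg, map_smul, map_zero, LinearMap.neg_apply, LinearMap.smul_apply,
      LinearMap.zero_apply, zero_add, add_zero] at e5
    have e7 : -(q • T u' u') + -(q • T u' u') = (-(2 * q)) • T u' u' := by module
    rw [e7] at e5
    have e8 := W.smul_mem (-(2 * q))⁻¹ e5
    rwa [smul_smul, inv_mul_cancel₀ (neg_ne_zero.mpr (mul_ne_zero t2 h6)), one_smul] at e8
  have e7 : sk T u u' ∈ W := by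
    have e := hbr _ h _ e6
    rw [hT, hT, h3, h3', one_smul, one_smul] at e
    exact e
  refine final' hT hb W hW h1 h2 h3 h4 h6 (fun y hy hy' => ?_) x y
  have e := hW u y _ e7
  have a4 : act b u y u = 0 := by
    simp only [act, h1, hb y u, hy, zero_smul, sub_zero]
  have a5 : act b u y u' = - y := by
    simp only [act, h3, hb y u', hy', zero_smul, one_smul, zero_sub]
  rw [br_sk hT hb, a4, a5, sk_zero_left, zero_add] at e
  have e3 : sk T u (-y) = - sk T u y := by
    simp only [sk, map_neg, LinearMap.neg_apply]; abel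
  rw [e3] at e
  simpa using W.neg_mem e

/-- case A -/
theorem caseA {u u' w w' w0 : V} (h1 : b u u = 0) (h2 : b u' u' = 0) (h3 : b u u' = 1)
    (h4 : b u w0 = 0) (h6 : b w0 w0 ≠ 0) (h8 : b u w' = 0) (h9 : b w w' = 1)
    (h12 : b w w0 = 0) (h13 : b w' w0 = 0)
    (h : sk T u w ∈ W) (x y : V) : sk T x y ∈ W := by
  have h9' : b w' w = 1 := by rw [hb]; exact h9
  have e1 : ∀ y, b u y = 0 → sk T u y - b y w • sk T u w' ∈ W := by
    intro y hy
    have e := hW y w' _ h
    have a1 : act b y w' u = 0 := by
      simp only [act, hb w' u, h8, hb y u, hy, zero_smul, sub_zero]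
    have a2 : act b y w' w = y - b y w • w' := by
      simp only [act, h9', one_smul]
    rwa [br_sk hT hb, a1, a2, sk_zero_left, zero_add, sk_sub_right, sk_smul_right] at e
  have e2 : sk T u w0 ∈ W := by
    have e := e1 w0 h4
    rwa [hb w0 w, h12, zero_smul, sub_zero] at e
  have e3 : sk T u w' ∈ W := by
    have e := hW w' w0 _ e2
    have a1 : act b w' w0 u = 0 := by
      simp only [act, hb w0 u, h4, hb w' u, h8, zero_smul, sub_zero]
    have a2 : act b w' w0 w0 = b w0 w0 • w' := by
      simp only [act, h13, zero_smul, sub_zero]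
    rw [br_sk hT hb, a1, a2, sk_zero_left, zero_add, sk_smul_right] at e
    have e6 := W.smul_mem (b w0 w0)⁻¹ e
    rwa [smul_smul, inv_mul_cancel₀ h6, one_smul] at e6
  refine final hT hb W hW h1 h2 h3 h4 h6 (fun y hy => ?_) x y
  have e := W.add_mem (e1 y hy) (W.smul_mem (b y w) e3)
  rwa [sub_add_cancel] at e

/-- an element of the square of a totally isotropic plane -/
theorem plane {u u' w w' w0 : V} (h1 : b u u = 0) (h2 : b u' u' = 0) (h3 : b u u' = 1)
    (h4 : b u w0 = 0) (h5 : b u' w0 = 0) (h6 : b w0 w0 ≠ 0) (h7 : b u w = 0) (h8 : b u w' = 0)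
    (h9 : b w w' = 1) (h10 : b w w = 0) (h11 : b w' w' = 0) (h12 : b w w0 = 0)
    (h13 : b w' w0 = 0) (h14 : b u' w = 0) (hbr : ∀ x ∈ W, ∀ y ∈ W, x * y - y * x ∈ W)
    (t2 : (2 : K) ≠ 0) (t3 : (3 : K) ≠ 0) (p q r s : K)
    (h : p • T u w - q • T u u - r • T w w + s • T w u ∈ W) :
    (p = 0 ∧ q = 0 ∧ r = 0 ∧ s = 0) ∨ ∀ x y, sk T x y ∈ W := by
  have h3' : b u' u = 1 := by rw [hb]; exact h3
  have h9' : b w' w = 1 := by rw [hb]; exact h9
  have h8' : b w' u = 0 := by rw [hb]; exact h8
  have h7' : b w u = 0 := by rw [hb]; exact h7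
  have hlin : ∀ (D : R) (p q r s : K), D * (p • T u w - q • T u u - r • T w w + s • T w u) -
      (p • T u w - q • T u u - r • T w w + s • T w u) * D =
      p • (D * T u w - T u w * D) - q • (D * T u u - T u u * D) - r • (D * T w w - T w w * D) +
        s • (D * T w u - T w u * D) := by
    intro D p q r s
    simp only [mul_sub, sub_mul, mul_add, add_mul, mul_smul_comm, smul_mul_assoc, smul_sub]
    abel
  have a1 : act b u w' u = 0 := by simp only [act, h8', h1, zero_smul, sub_zero]
  have a2 : act b u w' w = u := by simp only [act, h9', h7, one_smul, zero_smul, sub_zero]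
  have a3 : act b w u' u = w := by simp only [act, h3', h7', one_smul, zero_smul, sub_zero]
  have a4 : act b w u' w = 0 := by simp only [act, h14, h10, zero_smul, sub_zero]
  have fE : ∀ p q r s : K, p • T u w - q • T u u - r • T w w + s • T w u ∈ W →
      (p + s) • T u u - r • T u w - r • T w u ∈ W := by
    intro p q r s hh
    have e := hW u w' _ hh
    rw [hlin, br_T hT hb, br_T hT hb, br_T hT hb, br_T hT hb, a1, a2] at e
    convert e using 1
    simp only [map_zero, LinearMap.zero_apply, zero_add, add_zero]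
    module
  have fF : ∀ p q r s : K, p • T u w - q • T u u - r • T w w + s • T w u ∈ W →
      (p + s) • T w w - q • T w u - q • T u w ∈ W := by
    intro p q r s hh
    have e := hW w u' _ hh
    rw [hlin, br_T hT hb, br_T hT hb, br_T hT hb, br_T hT hb, a3, a4] at e
    convert e using 1
    simp only [map_zero, LinearMap.zero_apply, zero_add, add_zero]
    module
  by_cases hr : r = 0
  · subst hr
    by_cases hps : p + s = 0
    · have hs : s = -p := by linear_combination hps
      subst hs
      by_cases hq : q = 0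
      · subst hq
        by_cases hp : p = 0
        · left; simp [hp]
        · right
          have e : sk T u w ∈ W := by
            have e1 := W.smul_mem p⁻¹ h
            have e2 : p⁻¹ • (p • T u w - (0:K) • T u u - (0:K) • T w w + (-p) • T w u) = sk T u w := by
              simp only [zero_smul, sub_zero, smul_add, neg_smul, smul_neg, smul_smul,
                inv_mul_cancel₀ hp, one_smul, sk]
              abel
            rwa [e2] at e1
          exact caseA hT hb W hW h1 h2 h3 h4 h6 h8 h9 h12 h13 e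
      · right
        have e1 := fF _ _ _ _ h
        have e2 : (-q) • T u w - (0:K) • T u u - (-(p + -p)) • T w w + (-q) • T w u ∈ W := by
          convert e1 using 1; module
        have e3 := fF _ _ _ _ e2
        have e4 : T w w ∈ W := by
          have e5 : (-q + -q) • T w w - (0:K) • T w u - (0:K) • T u w = (-(2 * q)) • T w w := by
            module
          rw [e5] at e3
          have e6 := W.smul_mem (-(2 * q))⁻¹ e3
          rwa [smul_smul, inv_mul_cancel₀ (neg_ne_zero.mpr (mul_ne_zero t2 hq)), one_smul] at e6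
        exact caseB hT hb W hW h10 h11 h9 h12 h13 h6 hbr t2 t3 e4
    · right
      have e1 := fE _ _ _ _ h
      have e4 : T u u ∈ W := by
        have e5 : (p + s) • T u u - (0:K) • T u w - (0:K) • T w u = (p + s) • T u u := by
          module
        rw [e5] at e1
        have e6 := W.smul_mem (p + s)⁻¹ e1
        rwa [smul_smul, inv_mul_cancel₀ hps, one_smul] at e6
      exact caseB hT hb W hW h1 h2 h3 h4 h5 h6 hbr t2 t3 e4
  · right
    have e1 := fE _ _ _ _ h
    have e2 : (-r) • T u w - (-(p + s)) • T u u - (0:K) • T w w + (-r) • T w u ∈ W := by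
      convert e1 using 1; module
    have e3 := fE _ _ _ _ e2
    have e4 : T u u ∈ W := by
      have e5 : (-r + -r) • T u u - (0:K) • T u w - (0:K) • T w u = (-(2 * r)) • T u u := by
        module
      rw [e5] at e3
      have e6 := W.smul_mem (-(2 * r))⁻¹ e3
      rwa [smul_smul, inv_mul_cancel₀ (neg_ne_zero.mpr (mul_ne_zero t2 hr)), one_smul] at e6
    exact caseB hT hb W hW h1 h2 h3 h4 h5 h6 hbr t2 t3 e4

end Abs

section Mat

variable {K : Type*} [Field K] {n : Type*} [Fintype n]

/-- `x y^*` -/
def T (B : Matrix n n K) : (n → K) →ₗ[K] (n → K) →ₗ[K] Matrix n n K :=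
  LinearMap.mk₂ K (fun x y => vecMulVec x (y ᵥ* B))
    (fun x x' y => by rw [Matrix.add_vecMulVec])
    (fun c x y => by rw [Matrix.smul_vecMulVec])
    (fun x y y' => by rw [Matrix.add_vecMul, Matrix.vecMulVec_add])
    (fun c x y => by rw [Matrix.smul_vecMul, Matrix.vecMulVec_smul])

/-- the bilinear form -/
def bf (B : Matrix n n K) : (n → K) →ₗ[K] (n → K) →ₗ[K] K :=
  LinearMap.mk₂ K (fun x y => (x ᵥ* B) ⬝ᵥ y)
    (fun x x' y => by rw [Matrix.add_vecMul, add_dotProduct])
    (fun c x y => by rw [Matrix.smul_vecMul, smul_dotProduct])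
    (fun x y y' => by rw [dotProduct_add])
    (fun c x y => by rw [dotProduct_smul])

theorem T_apply (B : Matrix n n K) (x y : n → K) : T B x y = vecMulVec x (y ᵥ* B) := rfl

theorem bf_apply (B : Matrix n n K) (x y : n → K) : bf B x y = (x ᵥ* B) ⬝ᵥ y := rfl

theorem T_mul (B : Matrix n n K) (x y z w : n → K) :
    T B x y * T B z w = bf B y z • T B x w := by
  simp only [T_apply, bf_apply, Matrix.vecMulVec_mul_vecMulVec]
  rw [Matrix.vecMulVec_smul]

theorem mul_T (B M : Matrix n n K) (x y : n → K) : M * T B x y = T B (M *ᵥ x) y := by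
  simp only [T_apply, Matrix.mul_vecMulVec]

theorem bf_symm {B : Matrix n n K} (hB : Bᵀ = B) (x y : n → K) : bf B x y = bf B y x := by
  simp only [bf_apply]
  rw [← Matrix.dotProduct_mulVec, ← Matrix.vecMul_transpose, hB, dotProduct_comm]

variable [DecidableEq n]

/-- over `F`: the skew elements of isotropic vectors span -/
theorem span_iso {B : Matrix n n K} (hB : Bᵀ = B) (hdet : IsUnit B.det) (h2 : (2 : K) ≠ 0)
    (hn : 3 ≤ Fintype.card n) (hiso : ∃ u : n → K, u ≠ 0 ∧ (u ᵥ* B) ⬝ᵥ u = 0)
    (S : Submodule K (Matrix n n K))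
    (hS : ∀ u w, bf B u u = 0 → bf B u w = 0 → sk (T B) u w ∈ S) (a c : n → K) :
    sk (T B) a c ∈ S := by
  obtain ⟨e, he0, he⟩ := hiso
  have hb := bf_symm hB
  have he' : bf B e e = 0 := he
  -- nondegeneracy
  have hnd : ∀ x, (∀ y, bf B x y = 0) → x = 0 := by
    intro x hx
    have h1 : x ᵥ* B = 0 := by
      ext j
      have := hx (Pi.single j 1)
      rw [bf_apply, dotProduct_single, mul_one] at this
      simpa using this
    have h2 : x ᵥ* (B * B⁻¹) = 0 := by
      rw [← Matrix.vecMul_vecMul, h1, Matrix.zero_vecMul]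
    rwa [Matrix.mul_nonsing_inv _ hdet, Matrix.vecMul_one] at h2
  obtain ⟨f0, hf0⟩ : ∃ f0, bf B e f0 = 1 := by
    by_contra hcon
    push Not at hcon
    apply he0
    apply hnd
    intro y
    by_contra hy
    apply hcon ((bf B e y)⁻¹ • y)
    rw [map_smul, smul_eq_mul, inv_mul_cancel₀ hy]
  obtain ⟨f, hf1, hf2⟩ : ∃ f, bf B e f = 1 ∧ bf B f f = 0 := by
    refine ⟨f0 - (bf B f0 f0 / 2) • e, ?_, ?_⟩
    · rw [map_sub, map_smul, he', smul_zero, sub_zero, hf0]
    · simp only [map_sub, map_smul, LinearMap.sub_apply, LinearMap.smul_apply, smul_eq_mul, he',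
        hf0, hb f0 e]
      field_simp
      ring
  have hf1' : bf B f e = 1 := by rw [hb]; exact hf1
  have dec : ∀ x : n → K, ∃ x0, x = bf B x f • e + bf B x e • f + x0 ∧ bf B e x0 = 0 ∧
      bf B f x0 = 0 := by
    intro x
    refine ⟨x - bf B x f • e - bf B x e • f, by abel, ?_, ?_⟩
    · simp only [map_sub, map_smul, smul_eq_mul, he', hf1, hb e x]; ring
    · simp only [map_sub, map_smul, smul_eq_mul, hf2, hf1', hb f x]; ring
  obtain ⟨v, hv1, hv2, hv3⟩ : ∃ v, bf B e v = 0 ∧ bf B f v = 0 ∧ bf B v v ≠ 0 := by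
    classical
    by_contra hcon
    push Not at hcon
    have h0 : ∀ x y, bf B e x = 0 → bf B f x = 0 → bf B e y = 0 → bf B f y = 0 →
        bf B x y = 0 := by
      intro x y hx1 hx2 hy1 hy2
      have h1 := hcon (x + y) (by rw [map_add, hx1, hy1, add_zero])
        (by rw [map_add, hx2, hy2, add_zero])
      simp only [map_add, LinearMap.add_apply, hcon x hx1 hx2, hcon y hy1 hy2, hb y x] at h1
      have h3 : (2 : K) * bf B x y = 0 := by linear_combination h1
      exact (mul_eq_zero.mp h3).resolve_left h2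
    have h00 : ∀ x, bf B e x = 0 → bf B f x = 0 → x = 0 := by
      intro x hx1 hx2
      apply hnd
      intro y
      obtain ⟨y0, hy, hy1, hy2⟩ := dec y
      rw [hy]
      simp only [map_add, map_smul, hb x e, hb x f, hx1, hx2, smul_zero, zero_add]
      exact h0 x y0 hx1 hx2 hy1 hy2
    have hspan : Submodule.span K (({e, f} : Finset (n → K)) : Set (n → K)) = ⊤ := by
      rw [eq_top_iff]
      intro x _
      obtain ⟨x0, hx, hx1, hx2⟩ := dec x
      rw [h00 x0 hx1 hx2, add_zero] at hx
      rw [hx]
      apply Submodule.add_mem <;> apply Submodule.smul_mem <;> apply Submodule.subset_span <;> simp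
    have h5 := finrank_span_finset_le_card (R := K) ({e, f} : Finset (n → K))
    have h6 : ({e, f} : Finset (n → K)).card ≤ 2 := Finset.card_le_two
    unfold Set.finrank at h5
    rw [hspan, finrank_top, Module.finrank_fintype_fun_eq_card] at h5
    omega
  have hw : ∀ w w', bf B e w = 0 → bf B f w = 0 → bf B e w' = 0 → bf B f w' = 0 →
      sk (T B) w w' - bf B w w' • sk (T B) e f ∈ S := by
    intro w w' h1 h2' h3 h4
    set q := bf B w w / 2 with hq
    have hq' : bf B w w = 2 * q := by rw [hq]; field_simp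
    have m1 : sk (T B) (e + w - q • f) (w' - bf B w w' • f) ∈ S := by
      apply hS
      · simp only [map_add, map_sub, map_smul, LinearMap.add_apply, LinearMap.sub_apply,
          LinearMap.smul_apply, smul_eq_mul, he', hf1, hf1', hf2, h1, h2', hb w e, hb w f, hq']
        ring
      · simp only [map_add, map_sub, map_smul, LinearMap.add_apply, LinearMap.sub_apply,
          LinearMap.smul_apply, smul_eq_mul, hf1, hf2, h3, h4, hb w f, h2']
        ring
    have m2 : sk (T B) e w' ∈ S := hS _ _ he' h3
    have m3 : sk (T B) f w ∈ S := hS _ _ hf2 h2'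
    have m4 : sk (T B) f w' ∈ S := hS _ _ hf2 h4
    have m5 : sk (T B) w w' - bf B w w' • sk (T B) e f =
        sk (T B) (e + w - q • f) (w' - bf B w w' • f) - sk (T B) e w' -
          bf B w w' • sk (T B) f w + q • sk (T B) f w' := by
      simp only [sk_add_left, sk_sub_left, sk_sub_right, sk_smul_left, sk_smul_right, sk_self,
        sk_swap (T B) w f]
      module
    rw [m5]
    exact S.add_mem (S.sub_mem (S.sub_mem m1 m2) (S.smul_mem _ m3)) (S.smul_mem _ m4)
  have hef : sk (T B) e f ∈ S := by
    have h1 := hw v v hv1 hv2 hv1 hv2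
    rw [sk_self, zero_sub] at h1
    have h3 := S.smul_mem (bf B v v)⁻¹ (S.neg_mem h1)
    rwa [neg_neg, smul_smul, inv_mul_cancel₀ hv3, one_smul] at h3
  have hww : ∀ w w', bf B e w = 0 → bf B f w = 0 → bf B e w' = 0 → bf B f w' = 0 →
      sk (T B) w w' ∈ S := by
    intro w w' h1 h3 h4 h5
    have h6 := S.add_mem (hw w w' h1 h3 h4 h5) (S.smul_mem (bf B w w') hef)
    rwa [sub_add_cancel] at h6
  obtain ⟨a0, ha, ha1, ha2⟩ := dec a
  obtain ⟨c0, hc, hc1, hc2⟩ := dec c
  rw [ha, hc]
  simp only [sk_add_left, sk_add_right, sk_smul_left, sk_smul_right, sk_self, smul_zero, zero_add,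
    add_zero]
  have m1 : sk (T B) f e ∈ S := by rw [sk_swap]; exact S.neg_mem hef
  have m2 : sk (T B) e c0 ∈ S := hS _ _ he' hc1
  have m3 : sk (T B) f c0 ∈ S := hS _ _ hf2 hc2
  have m4 : sk (T B) a0 e ∈ S := by rw [sk_swap]; exact S.neg_mem (hS _ _ he' ha1)
  have m5 : sk (T B) a0 f ∈ S := by rw [sk_swap]; exact S.neg_mem (hS _ _ hf2 ha2)
  have m6 : sk (T B) a0 c0 ∈ S := hww _ _ ha1 ha2 hc1 hc2
  repeat' first | assumption | apply S.add_mem | apply S.smul_mem

theorem nondeg {B : Matrix n n K} (hdet : IsUnit B.det) (x : n → K) (hx : ∀ y, bf B x y = 0) :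
    x = 0 := by
  have h1 : x ᵥ* B = 0 := by
    ext j
    have := hx (Pi.single j 1)
    rw [bf_apply, dotProduct_single, mul_one] at this
    simpa using this
  have h2 : x ᵥ* (B * B⁻¹) = 0 := by
    rw [← Matrix.vecMul_vecMul, h1, Matrix.zero_vecMul]
  rwa [Matrix.mul_nonsing_inv _ hdet, Matrix.vecMul_one] at h2

/-- orthonormal basis over an algebraically closed field -/
theorem ortho [IsAlgClosed K] {B : Matrix n n K} (hB : Bᵀ = B) (hdet : IsUnit B.det)
    (h2 : (2 : K) ≠ 0) : ∃ o : Module.Basis n K (n → K), ∀ x y, bf B (o x) (o y) =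
      if x = y then 1 else 0 := by
  have : Invertible (2 : K) := invertibleOfNonzero h2
  have hs : (bf B : LinearMap.BilinForm K (n → K)).IsSymm := ⟨fun x y => by
    simpa using bf_symm hB x y⟩
  obtain ⟨v, hv⟩ := LinearMap.BilinForm.exists_orthogonal_basis hs
  have hcard : Fintype.card n = Module.finrank K (n → K) := by
    rw [Module.finrank_fintype_fun_eq_card]
  set v' : Module.Basis n K (n → K) := v.reindex (Fintype.equivFinOfCardEq hcard).symm with hv'
  have hv1 : ∀ x y, x ≠ y → bf B (v' x) (v' y) = 0 := by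
    intro x y hxy
    have := hv (i := (Fintype.equivFinOfCardEq hcard) x) (j := (Fintype.equivFinOfCardEq hcard) y)
      (fun h => hxy ((Fintype.equivFinOfCardEq hcard).injective h))
    simpa [hv', Module.Basis.reindex_apply] using this
  have hv2 : ∀ x, bf B (v' x) (v' x) ≠ 0 := by
    intro x hx
    apply v'.ne_zero x
    apply nondeg hdet
    intro y
    have h0 : bf B (v' x) = 0 := by
      apply v'.ext
      intro y
      by_cases hxy : x = y
      · subst hxy; simpa using hx
      · simpa using hv1 x y hxy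
    rw [h0]; rfl
  choose s hs using fun x => IsAlgClosed.exists_eq_mul_self (bf B (v' x) (v' x))
  have hs0 : ∀ x, s x ≠ 0 := by
    intro x h
    apply hv2 x
    rw [hs x, h, mul_zero]
  refine ⟨v'.isUnitSMul (w := fun x => (s x)⁻¹) (fun x => (isUnit_iff_ne_zero.mpr (hs0 x)).inv),
    fun x y => ?_⟩
  rw [Module.Basis.isUnitSMul_apply, Module.Basis.isUnitSMul_apply]
  simp only [map_smul, LinearMap.smul_apply, smul_eq_mul]
  by_cases hxy : x = y
  · subst hxy
    rw [if_pos rfl, hs x]
    field_simp [hs0 x]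
  · rw [if_neg hxy, hv1 x y hxy, mul_zero, mul_zero]

/-- the core over an algebraically closed field -/
theorem core [IsAlgClosed K] {B : Matrix n n K} (hB : Bᵀ = B) (hdet : IsUnit B.det)
    (h2 : (2 : K) ≠ 0) (h3 : (3 : K) ≠ 0) (hn : 5 ≤ Fintype.card n)
    (W : Submodule K (Matrix n n K)) (hbr : ∀ x ∈ W, ∀ y ∈ W, x * y - y * x ∈ W)
    (hW : ∀ a c, ∀ Y ∈ W, sk (T B) a c * Y - Y * sk (T B) a c ∈ W)
    {X : Matrix n n K} (hX : X ∈ W) (hXs : ∀ l : K, X ≠ l • 1) (a c : n → K) :
    sk (T B) a c ∈ W := by
  classical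
  by_contra hcon
  have hcon' : ¬ ∀ x y, sk (T B) x y ∈ W := fun h => hcon (h a c)
  obtain ⟨o, ho⟩ := ortho hB hdet h2
  obtain ⟨i, hi⟩ := IsAlgClosed.exists_pow_nat_eq (-1 : K) (n := 2) (by norm_num)
  have hb := bf_symm hB
  have hT := T_mul B
  have hi' : i * i = -1 := by rw [← pow_two]; exact hi
  -- the elements of a totally isotropic plane
  have hpl : ∀ a b c d f : n, a ≠ b → a ≠ c → a ≠ d → a ≠ f → b ≠ c → b ≠ d → b ≠ f → c ≠ d →
      c ≠ f → d ≠ f → ∀ s t : K, s * s = 1 → t * t = 1 →
      bf B (o c + (t * i) • o d) (X *ᵥ (o a + (s * i) • o b)) = 0 ∧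
      bf B (o a + (s * i) • o b) (X *ᵥ (o a + (s * i) • o b)) = 0 := by
    intro a b c d f hab hac had haf hbc hbd hbf hcd hcf hdf s t hs ht
    have hs' : (s * i) * (s * i) = -1 := by linear_combination hs * (i * i) + hi'
    have ht' : (t * i) * (t * i) = -1 := by linear_combination ht * (i * i) + hi'
    have hd : ((a = b) = False) ∧ ((b = a) = False) ∧ ((a = c) = False) ∧ ((c = a) = False) ∧
        ((a = d) = False) ∧ ((d = a) = False) ∧ ((b = c) = False) ∧ ((c = b) = False) ∧
        ((b = d) = False) ∧ ((d = b) = False) ∧ ((c = d) = False) ∧ ((d = c) = False) ∧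
        ((a = f) = False) ∧ ((b = f) = False) ∧ ((c = f) = False) ∧ ((d = f) = False) := by
      simp only [eq_iff_iff, iff_false]
      exact ⟨hab, hab.symm, hac, hac.symm, had, had.symm, hbc, hbc.symm, hbd, hbd.symm, hcd,
        hcd.symm, haf, hbf, hcf, hdf⟩
    obtain ⟨e1, e2, e3, e4, e5, e6, e7, e8, e9, e10, e11, e12, e13, e14, e15, e16⟩ := hd
    set u := o a + (s * i) • o b with hu
    set u' := (2 : K)⁻¹ • (o a - (s * i) • o b) with hu'
    set w := o c + (t * i) • o d with hw
    set w' := (2 : K)⁻¹ • (o c - (t * i) • o d) with hw'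
    have r1 : bf B u u = 0 := by
      simp only [hu, map_add, map_smul, LinearMap.add_apply, LinearMap.smul_apply, smul_eq_mul, ho,
        e1, e2, if_false, if_true]
      linear_combination hs'
    have r2 : bf B u' u' = 0 := by
      simp only [hu', map_sub, map_smul, LinearMap.sub_apply, LinearMap.smul_apply, smul_eq_mul, ho,
        e1, e2, if_false, if_true]
      linear_combination (2 : K)⁻¹ * (2 : K)⁻¹ * hs'
    have r3 : bf B u u' = 1 := by
      simp only [hu, hu', map_add, map_sub, map_smul, LinearMap.add_apply, LinearMap.sub_apply,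
        LinearMap.smul_apply, smul_eq_mul, ho, e1, e2, if_false, if_true]
      field_simp
      linear_combination -hs'
    have r4 : bf B u (o f) = 0 := by
      simp only [hu, map_add, map_smul, LinearMap.add_apply, LinearMap.smul_apply, smul_eq_mul, ho,
        e13, e14, if_false, mul_zero, add_zero]
    have r5 : bf B u' (o f) = 0 := by
      simp only [hu', map_sub, map_smul, LinearMap.sub_apply, LinearMap.smul_apply, smul_eq_mul, ho,
        e13, e14, if_false, mul_zero, sub_zero]
    have r6 : bf B (o f) (o f) ≠ 0 := by rw [ho, if_pos rfl]; exact one_ne_zero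
    have r7 : bf B u w = 0 := by
      simp only [hu, hw, map_add, map_smul, LinearMap.add_apply, LinearMap.smul_apply, smul_eq_mul,
        ho, e3, e5, e7, e9, if_false, mul_zero, add_zero]
    have r8 : bf B u w' = 0 := by
      simp only [hu, hw', map_add, map_sub, map_smul, LinearMap.add_apply, LinearMap.sub_apply,
        LinearMap.smul_apply, smul_eq_mul, ho, e3, e5, e7, e9, if_false, mul_zero, add_zero,
        sub_zero]
    have r9 : bf B w w' = 1 := by
      simp only [hw, hw', map_add, map_sub, map_smul, LinearMap.add_apply, LinearMap.sub_apply,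
        LinearMap.smul_apply, smul_eq_mul, ho, e11, e12, if_false, if_true]
      field_simp
      linear_combination -ht'
    have r10 : bf B w w = 0 := by
      simp only [hw, map_add, map_smul, LinearMap.add_apply, LinearMap.smul_apply, smul_eq_mul, ho,
        e11, e12, if_false, if_true]
      linear_combination ht'
    have r11 : bf B w' w' = 0 := by
      simp only [hw', map_sub, map_smul, LinearMap.sub_apply, LinearMap.smul_apply, smul_eq_mul, ho,
        e11, e12, if_false, if_true]
      linear_combination (2 : K)⁻¹ * (2 : K)⁻¹ * ht'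
    have r12 : bf B w (o f) = 0 := by
      simp only [hw, map_add, map_smul, LinearMap.add_apply, LinearMap.smul_apply, smul_eq_mul, ho,
        e15, e16, if_false, mul_zero, add_zero]
    have r13 : bf B w' (o f) = 0 := by
      simp only [hw', map_sub, map_smul, LinearMap.sub_apply, LinearMap.smul_apply, smul_eq_mul, ho,
        e15, e16, if_false, mul_zero, sub_zero]
    have r14 : bf B u' w = 0 := by
      simp only [hu', hw, map_add, map_sub, map_smul, LinearMap.add_apply, LinearMap.sub_apply,
        LinearMap.smul_apply, smul_eq_mul, ho, e3, e5, e7, e9, if_false, mul_zero, add_zero,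
        sub_zero]
    -- the square of `D`
    set D := sk (T B) u w with hD
    have hD2 : D * D = 0 := by
      simp only [hD, sk, mul_sub, sub_mul, hT, r1, r7, r10, hb w u, zero_smul, sub_zero]
    have m1 := hW u w _ (hW u w _ hX)
    have m2 : D * X * D ∈ W := by
      have m3 : D * (D * X - X * D) - (D * X - X * D) * D = (-2 : K) • (D * X * D) := by
        have : D * (D * X - X * D) - (D * X - X * D) * D =
            (D * D) * X - D * X * D - D * X * D + X * (D * D) := by noncomm_ring
        rw [this, hD2, zero_mul, mul_zero]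
        module
      rw [← hD, m3] at m1
      have m4 := W.smul_mem (-2 : K)⁻¹ m1
      rwa [smul_smul, inv_mul_cancel₀ (neg_ne_zero.mpr h2), one_smul] at m4
    have m5 : D * X * D = bf B w (X *ᵥ u) • T B u w - bf B w (X *ᵥ w) • T B u u -
        bf B u (X *ᵥ u) • T B w w + bf B u (X *ᵥ w) • T B w u := by
      rw [mul_assoc, hD]
      simp only [sk, mul_sub, sub_mul, mul_T, hT]
      abel
    rw [m5] at m2
    rcases plane hT hb W hW r1 r2 r3 r4 r5 r6 r7 r8 r9 r10 r11 r12 r13 r14 hbr h2 h3 _ _ _ _ m2 with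
      h | h
    · exact ⟨h.1, h.2.2.1⟩
    · exact absurd h hcon'
  -- choose further indices
  have hex : ∀ s : Finset n, s.card < 5 → ∃ x, x ∉ s := by
    intro s hs
    by_contra hh
    push Not at hh
    have : s = Finset.univ := Finset.eq_univ_iff_forall.mpr hh
    rw [this, Finset.card_univ] at hs
    omega
  have h4 : (4 : K) ≠ 0 := by
    have : (4 : K) = 2 * 2 := by norm_num
    rw [this]; exact mul_ne_zero h2 h2
  have hoff : ∀ a c : n, c ≠ a → bf B (o c) (X *ᵥ (o a)) = 0 ∧
      bf B (o a) (X *ᵥ (o a)) = bf B (o c) (X *ᵥ (o c)) := by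
    intro a c hca
    obtain ⟨b, hb1⟩ := hex {a, c} (lt_of_le_of_lt (Finset.card_le_two) (by norm_num))
    simp only [Finset.mem_insert, Finset.mem_singleton, not_or] at hb1
    obtain ⟨d, hd1⟩ := hex {a, c, b} (lt_of_le_of_lt (Finset.card_le_three) (by norm_num))
    simp only [Finset.mem_insert, Finset.mem_singleton, not_or] at hd1
    obtain ⟨f, hf1⟩ := hex {a, c, b, d} (lt_of_le_of_lt (Finset.card_le_four) (by norm_num))
    simp only [Finset.mem_insert, Finset.mem_singleton, not_or] at hf1
    have g := hpl a b c d f (Ne.symm hb1.1) (Ne.symm hca) (Ne.symm hd1.1) (Ne.symm hf1.1) hb1.2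
      (Ne.symm hd1.2.2) (Ne.symm hf1.2.2.1) (Ne.symm hd1.2.1) (Ne.symm hf1.2.1)
      (Ne.symm hf1.2.2.2)
    have g' := hpl a c b d f (Ne.symm hca) (Ne.symm hb1.1) (Ne.symm hd1.1) (Ne.symm hf1.1)
      (Ne.symm hb1.2) (Ne.symm hd1.2.1) (Ne.symm hf1.2.1) (Ne.symm hd1.2.2)
      (Ne.symm hf1.2.2.1) (Ne.symm hf1.2.2.2)
    have g1 := (g 1 1 (by ring) (by ring)).1
    have g2 := (g 1 (-1) (by ring) (by ring)).1
    have g3 := (g (-1) 1 (by ring) (by ring)).1
    have g4 := (g (-1) (-1) (by ring) (by ring)).1
    have g5 := (g' 1 1 (by ring) (by ring)).2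
    have g6 := (g' (-1) 1 (by ring) (by ring)).2
    simp only [Matrix.mulVec_add, Matrix.mulVec_smul, map_add, map_smul, LinearMap.add_apply,
      LinearMap.smul_apply, smul_eq_mul, one_mul, neg_mul, mul_neg] at g1 g2 g3 g4 g5 g6
    constructor
    · have : (4 : K) * bf B (o c) (X *ᵥ (o a)) = 0 := by linear_combination g1 + g2 + g3 + g4
      exact (mul_eq_zero.mp this).resolve_left h4
    · have : (2 : K) * (bf B (o a) (X *ᵥ (o a)) - bf B (o c) (X *ᵥ (o c))) = 0 := by
        linear_combination g5 + g6 - 2 * bf B (o c) (X *ᵥ (o c)) * hi'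
      exact sub_eq_zero.mp ((mul_eq_zero.mp this).resolve_left h2)
  obtain ⟨a0, -⟩ := hex ∅ (by simp)
  set l := bf B (o a0) (X *ᵥ (o a0)) with hl
  have hdiag : ∀ a, bf B (o a) (X *ᵥ (o a)) = l := by
    intro a
    by_cases h : a0 = a
    · rw [← h]
    · exact (hoff a a0 h).2
  have heig : ∀ a, X *ᵥ (o a) = l • o a := by
    intro a
    rw [← sub_eq_zero]
    apply nondeg hdet
    intro y
    have h0 : bf B (X *ᵥ (o a) - l • o a) = 0 := by
      apply o.ext
      intro c
      rw [hb, map_sub, map_smul, ho, smul_eq_mul, LinearMap.zero_apply]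
      by_cases h : c = a
      · subst h; rw [if_pos rfl, hdiag, mul_one, sub_self]
      · rw [if_neg h, (hoff a c h).1, mul_zero, sub_zero]
    rw [h0]; rfl
  apply hXs l
  have hl2 : Matrix.toLin' X = Matrix.toLin' (l • (1 : Matrix n n K)) := by
    apply o.ext
    intro a
    rw [Matrix.toLin'_apply, Matrix.toLin'_apply, heig, Matrix.smul_mulVec, Matrix.one_mulVec]
  exact Matrix.toLin'.injective hl2

end Mat

end O1

open O1 in
/-- Block O1. -/
theorem so_mem_pr {F : Type*} [Field F] {k : Type*} [Field k] [IsAlgClosed k] [Algebra F k] {p : ℕ}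
    [Fact p.Prime] [CharP k p] (hp : 5 ≤ p) {n : Type*} [Fintype n] [DecidableEq n]
    (hn : 5 ≤ Fintype.card n) (B : Matrix n n F) (hB : Bᵀ = B) (hdet : IsUnit B.det)
    (hiso : ∃ u : n → F, u ≠ 0 ∧ (u ᵥ* B) ⬝ᵥ u = 0) (W : Submodule k (Matrix n n k))
    (hbr : ∀ x ∈ W, ∀ y ∈ W, x * y - y * x ∈ W)
    (hW : ∀ u w : n → F, (u ᵥ* B) ⬝ᵥ u = 0 → (u ᵥ* B) ⬝ᵥ w = 0 → ∀ Y ∈ W,
      (eich B u w).map (algebraMap F k) * Y * (eich B u (-w)).map (algebraMap F k) ∈ W)
    {X : Matrix n n k} (hX : X ∈ W) (hXs : ∀ l : k, X ≠ l • 1) (a b : n → k) :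
    vecMulVec a (b ᵥ* B.map (algebraMap F k)) - vecMulVec b (a ᵥ* B.map (algebraMap F k)) ∈ W := by
  have hcast : ∀ m : ℕ, 0 < m → m < 5 → (m : k) ≠ 0 := by
    intro m hm hm5 h
    have := (CharP.cast_eq_zero_iff k p m).mp h
    have := Nat.le_of_dvd hm this
    omega
  have h2 : (2 : k) ≠ 0 := by exact_mod_cast hcast 2 (by norm_num) (by norm_num)
  have h3 : (3 : k) ≠ 0 := by exact_mod_cast hcast 3 (by norm_num) (by norm_num)
  have h12 : (12 : k) ≠ 0 := by
    have : (12 : k) = 2 * 2 * 3 := by norm_num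
    rw [this]; exact mul_ne_zero (mul_ne_zero h2 h2) h3
  have h2F : (2 : F) ≠ 0 := by
    intro h
    apply h2
    have e := congrArg (algebraMap F k) h
    rwa [map_ofNat, map_zero] at e
  set φ := algebraMap F k with hφ
  have hBk : (B.map φ)ᵀ = B.map φ := by rw [← Matrix.transpose_map, hB]
  have hdetk : IsUnit (B.map φ).det := by
    rw [← RingHom.mapMatrix_apply, ← RingHom.map_det]
    exact hdet.map φ
  -- the stabilizer, over `F`
  let S : Submodule F (Matrix n n F) :=
    { carrier := {M | ∀ Y ∈ W, M.map φ * Y - Y * M.map φ ∈ W}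
      add_mem' := by
        intro M M' h h' Y hY
        have e := W.add_mem (h Y hY) (h' Y hY)
        rw [Matrix.map_add φ (map_add φ)]
        convert e using 1
        noncomm_ring
      zero_mem' := by
        intro Y _
        rw [Matrix.map_zero φ (map_zero φ), zero_mul, mul_zero, sub_zero]
        exact W.zero_mem
      smul_mem' := by
        intro c M h Y hY
        have e := W.smul_mem (φ c) (h Y hY)
        have e1 : (c • M).map φ = φ c • M.map φ := by
          ext i j; simp
        show (c • M).map φ * Y - Y * (c • M).map φ ∈ W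
        rw [e1, Matrix.smul_mul, Matrix.mul_smul, ← smul_sub]
        exact e }
  have hS : ∀ u w, bf B u u = 0 → bf B u w = 0 → sk (T B) u w ∈ S := by
    intro u w hu hw Y hY
    set N := (sk (T B) u w).map φ with hN
    set M := ((-((2 : F)⁻¹ * bf B w w)) • T B u u).map φ with hM
    have heich : ∀ c : F, (eich B u (c • w)).map φ = 1 + φ c • N + (φ c * φ c) • M := by
      intro c
      have e1 : eich B u (c • w) = 1 + c • sk (T B) u w +
          (c * c) • ((-((2 : F)⁻¹ * bf B w w)) • T B u u) := by
        simp only [eich, sk, T_apply, bf_apply, Matrix.smul_vecMul, Matrix.vecMulVec_smul,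
          Matrix.smul_vecMulVec, smul_dotProduct, dotProduct_smul, smul_eq_mul]
        module
      rw [e1, hN, hM]
      ext i j
      simp [Matrix.one_apply, apply_ite φ]
    have hf : ∀ c : F, (1 + φ c • N + (φ c * φ c) • M) * Y * (1 - φ c • N + (φ c * φ c) • M) ∈ W := by
      intro c
      have e := hW u (c • w) hu (by
        have : bf B u (c • w) = 0 := by rw [map_smul, hw, smul_zero]
        exact this) Y hY
      rw [← neg_smul, heich, heich] at e
      simpa [map_neg, neg_smul, sub_eq_add_neg] using e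
    have f1 := hf 1
    have f2 := hf (-1)
    have f3 := hf 2
    have f4 := hf (-2)
    simp only [map_one, map_neg, map_ofNat] at f1 f2 f3 f4
    have e1 : (12 : k) • (N * Y - Y * N) =
        (8 : k) • ((1 + (1 : k) • N + ((1 : k) * 1) • M) * Y * (1 - (1 : k) • N + ((1 : k) * 1) • M) -
          (1 + (-1 : k) • N + ((-1 : k) * -1) • M) * Y * (1 - (-1 : k) • N + ((-1 : k) * -1) • M)) -
        ((1 + (2 : k) • N + ((2 : k) * 2) • M) * Y * (1 - (2 : k) • N + ((2 : k) * 2) • M) -
          (1 + (-2 : k) • N + ((-2 : k) * -2) • M) * Y *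
            (1 - (-2 : k) • N + ((-2 : k) * -2) • M)) := by
      simp only [add_mul, mul_add, sub_mul, mul_sub, Matrix.smul_mul, Matrix.mul_smul, one_mul,
        mul_one, smul_add, smul_sub, smul_smul]
      module
    have e2 : (12 : k) • (N * Y - Y * N) ∈ W := by
      rw [e1]
      exact W.sub_mem (W.smul_mem _ (W.sub_mem f1 f2)) (W.sub_mem f3 f4)
    have e3 := W.smul_mem (12 : k)⁻¹ e2
    rwa [smul_smul, inv_mul_cancel₀ h12, one_smul] at e3
  have hS' := span_iso hB hdet h2F (by omega) hiso S hS
  -- the stabilizer, over `k`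
  let S' : Submodule k (Matrix n n k) :=
    { carrier := {M | ∀ Y ∈ W, M * Y - Y * M ∈ W}
      add_mem' := by
        intro M M' h h' Y hY
        have e := W.add_mem (h Y hY) (h' Y hY)
        convert e using 1
        noncomm_ring
      zero_mem' := by
        intro Y _
        rw [zero_mul, mul_zero, sub_zero]
        exact W.zero_mem
      smul_mem' := by
        intro c M h Y hY
        have e := W.smul_mem c (h Y hY)
        show (c • M) * Y - Y * (c • M) ∈ W
        rw [Matrix.smul_mul, Matrix.mul_smul, ← smul_sub]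
        exact e }
  have hbas : ∀ i j, sk (T (B.map φ)) (Pi.single i 1) (Pi.single j 1) ∈ S' := by
    intro i j
    have e1 : sk (T (B.map φ)) (Pi.single i 1) (Pi.single j 1) =
        (sk (T B) (Pi.single i 1) (Pi.single j 1)).map φ := by
      ext x y
      simp [sk, T_apply, vecMulVec_apply, Pi.single_apply, apply_ite φ, Matrix.single_vecMul]
    rw [e1]
    exact hS' _ _
  have hall : ∀ x y : n → k, sk (T (B.map φ)) x y ∈ S' := by
    have h1 : ∀ (j : n) (x : n → k), sk (T (B.map φ)) x (Pi.single j 1) ∈ S' := by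
      intro j x
      rw [← (Pi.basisFun k n).sum_repr x]
      have : ∀ t : Finset n, sk (T (B.map φ)) (∑ i ∈ t, (Pi.basisFun k n).repr x i • Pi.basisFun k n i)
          (Pi.single j 1) ∈ S' := by
        intro t
        induction t using Finset.induction_on with
        | empty => rw [Finset.sum_empty, sk_zero_left]; exact S'.zero_mem
        | insert i t hi ih =>
          rw [Finset.sum_insert hi, sk_add_left, sk_smul_left]
          refine S'.add_mem (S'.smul_mem _ ?_) ih
          rw [Pi.basisFun_apply]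
          exact hbas i j
      exact this _
    intro x y
    rw [← (Pi.basisFun k n).sum_repr y]
    have : ∀ t : Finset n, sk (T (B.map φ)) x (∑ i ∈ t, (Pi.basisFun k n).repr y i • Pi.basisFun k n i)
        ∈ S' := by
      intro t
      induction t using Finset.induction_on with
      | empty => rw [Finset.sum_empty, sk_zero_right]; exact S'.zero_mem
      | insert i t hi ih =>
        rw [Finset.sum_insert hi, sk_add_right, sk_smul_right]
        refine S'.add_mem (S'.smul_mem _ ?_) ih
        rw [Pi.basisFun_apply]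
        exact h1 i x
    exact this _
  exact core hBk hdetk h2 h3 hn W hbr (fun x y Y hY => hall x y Y hY) hX hXs a b

end Pool.Agent.RO
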